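import Pool.Agent.Work.MP_918ecd_co.Hit

/-!
Hereditary families of finite hypergraphs with `m_2` finite have hitting sets of linear size.

The file gives the definitions of the problem (finite hypergraphs, subhypergraphs, traces,
hereditary families, polychromatic colourings, the numbers `m_k`) and proves that if
`m_2(F) ≤ M`, then for every member `H` of `F`, all vertex weights and every threshold `δ > 0`
some set of at most `25600 (M - 1) w(V) / δ` vertices meets all edges of weight at least `δ`.
-/

namespace Pool.Agent.Results.MP_918ecd_co.LinearHittingSets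

open Finset

/-- A finite hypergraph with vertices in `α`: a finite vertex set together with a nonempty finite
set of edges, each edge being a nonempty set of vertices. -/
structure FinHyp (α : Type*) where
  verts : Finset α
  edges : Finset (Finset α)
  edges_nonempty : edges.Nonempty
  nonempty_of_mem : ∀ e ∈ edges, e.Nonempty
  subset_of_mem : ∀ e ∈ edges, e ⊆ verts

variable {α : Type*} [DecidableEq α]

/-- `H'` is a subhypergraph of `H`. -/
def IsSub (H' H : FinHyp α) : Prop := H'.verts ⊆ H.verts ∧ H'.edges ⊆ H.edges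

/-- `H'` is the trace of `H` on the set `X` of vertices of `H`: its vertex set is `X` and its edges
are the nonempty sets of the form `e ∩ X`, with `e` an edge of `H`. -/
def IsTrace (H' H : FinHyp α) (X : Finset α) : Prop :=
  X ⊆ H.verts ∧ H'.verts = X ∧
    ∀ f : Finset α, f ∈ H'.edges ↔ f.Nonempty ∧ ∃ e ∈ H.edges, e ∩ X = f

/-- A family of finite hypergraphs is hereditary if it is closed under subhypergraphs and
traces. -/
def Hereditary (F : Set (FinHyp α)) : Prop :=
  ∀ H ∈ F, (∀ H', IsSub H' H → H' ∈ F) ∧ (∀ X H', IsTrace H' H X → H' ∈ F)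

/-- `H` has a polychromatic `k`-colouring: a colouring of the vertices with `k` colours such that
every edge has vertices of all `k` colours. -/
def Polychromatic (k : ℕ) (H : FinHyp α) : Prop :=
  ∃ c : α → Fin k, ∀ e ∈ H.edges, ∀ i : Fin k, ∃ v ∈ e, c v = i

/-- `H` is `m`-heavy: every edge has at least `m` vertices. -/
def Heavy (m : ℕ) (H : FinHyp α) : Prop := ∀ e ∈ H.edges, m ≤ e.card

/-- The number `m_k(F)`: the least `m` such that every `m`-heavy member of `F` has a polychromatic
`k`-colouring, and `∞` if there is no such `m`. -/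
noncomputable def mNum (F : Set (FinHyp α)) (k : ℕ) : ℕ∞ :=
  ⨅ m ∈ {m : ℕ | ∀ H ∈ F, Heavy m H → Polychromatic k H}, (m : ℕ∞)

omit [DecidableEq α] in
lemma works_of_mNum_le {F : Set (FinHyp α)} {k M : ℕ} (h : mNum F k ≤ M) :
    ∀ H ∈ F, Heavy M H → Polychromatic k H := by
  by_contra hcon
  have h1 : ((M + 1 : ℕ) : ℕ∞) ≤ mNum F k := by
    refine le_iInf₂ fun m hm => ?_
    have : M < m := by
      by_contra hle
      push Not at hle
      exact hcon fun H hH hheavy => hm H hH fun e he => hle.trans (hheavy e he)
    exact_mod_cast this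
  have h2 := h1.trans h
  have h3 : M + 1 ≤ M := by exact_mod_cast h2
  omega

lemma two_le {F : Set (FinHyp α)} (hF : Hereditary F) {M : ℕ} (h : mNum F 2 ≤ M)
    {H : FinHyp α} (hH : H ∈ F) : 2 ≤ M := by
  by_contra hlt
  push Not at hlt
  obtain ⟨e, he⟩ := H.edges_nonempty
  obtain ⟨v, hv⟩ := H.nonempty_of_mem e he
  let H' : FinHyp α :=
    { verts := {v}
      edges := {{v}}
      edges_nonempty := ⟨{v}, Finset.mem_singleton_self _⟩
      nonempty_of_mem := fun f hf => by
        rw [Finset.mem_singleton.1 hf]
        exact Finset.singleton_nonempty v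
      subset_of_mem := fun f hf => by rw [Finset.mem_singleton.1 hf] }
  have htr : IsTrace H' H {v} := by
    refine ⟨Finset.singleton_subset_iff.2 (H.subset_of_mem e he hv), rfl, fun f => ?_⟩
    constructor
    · intro hf
      have hf' : f = {v} := Finset.mem_singleton.1 hf
      subst hf'
      exact ⟨Finset.singleton_nonempty v, e, he, Finset.inter_singleton_of_mem hv⟩
    · rintro ⟨hne, e', _, rfl⟩
      have hsub : e' ∩ {v} ⊆ {v} := Finset.inter_subset_right
      rcases Finset.subset_singleton_iff.1 hsub with h1 | h1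
      · exact absurd h1 hne.ne_empty
      · rw [h1]
        exact Finset.mem_singleton_self _
  have hH' : H' ∈ F := (hF H hH).2 _ _ htr
  have hheavy : Heavy M H' := by
    intro f hf
    have hf' : f = {v} := Finset.mem_singleton.1 hf
    rw [hf', Finset.card_singleton]
    omega
  obtain ⟨c, hc⟩ := works_of_mNum_le h H' hH' hheavy
  obtain ⟨x, hx, hx0⟩ := hc {v} (Finset.mem_singleton_self _) 0
  obtain ⟨y, hy, hy1⟩ := hc {v} (Finset.mem_singleton_self _) 1
  rw [Finset.mem_singleton.1 hx] at hx0
  rw [Finset.mem_singleton.1 hy] at hy1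
  rw [hx0] at hy1
  exact absurd hy1 (by decide)

lemma good_of_mNum_le {F : Set (FinHyp α)} (hF : Hereditary F) {M : ℕ} (h : mNum F 2 ≤ M)
    {H : FinHyp α} (hH : H ∈ F) :
    Pool.Agent.Work.MP_918ecd_co.Good (M - 1) H.verts H.edges := by
  classical
  have hM := two_le hF h hH
  intro X hX
  set E' := H.edges.filter (fun e => M - 1 < (e ∩ X).card) with hE'
  rcases E'.eq_empty_or_nonempty with hemp | hne
  · refine ⟨fun _ => true, fun e he hcard => ?_⟩
    have : e ∈ E' := Finset.mem_filter.2 ⟨he, hcard⟩
    rw [hemp] at this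
    exact absurd this (Finset.notMem_empty _)
  · let H1 : FinHyp α :=
      { verts := H.verts
        edges := E'
        edges_nonempty := hne
        nonempty_of_mem := fun e he => H.nonempty_of_mem e (Finset.mem_filter.1 he).1
        subset_of_mem := fun e he => H.subset_of_mem e (Finset.mem_filter.1 he).1 }
    have hH1 : H1 ∈ F := (hF H hH).1 _ ⟨Finset.Subset.refl _, Finset.filter_subset _ _⟩
    let H2 : FinHyp α :=
      { verts := X
        edges := E'.image (fun e => e ∩ X)
        edges_nonempty := hne.image _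
        nonempty_of_mem := fun f hf => by
          obtain ⟨e, he, rfl⟩ := Finset.mem_image.1 hf
          have := (Finset.mem_filter.1 he).2
          exact Finset.card_pos.1 (by omega)
        subset_of_mem := fun f hf => by
          obtain ⟨e, he, rfl⟩ := Finset.mem_image.1 hf
          exact Finset.inter_subset_right }
    have htr : IsTrace H2 H1 X := by
      refine ⟨hX, rfl, fun f => ?_⟩
      constructor
      · intro hf
        refine ⟨H2.nonempty_of_mem f hf, ?_⟩
        obtain ⟨e, he, hef⟩ := Finset.mem_image.1 hf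
        exact ⟨e, he, hef⟩
      · rintro ⟨_, e, he, hef⟩
        exact Finset.mem_image.2 ⟨e, he, hef⟩
    have hH2 : H2 ∈ F := (hF H1 hH1).2 _ _ htr
    have hheavy : Heavy M H2 := by
      intro f hf
      obtain ⟨e, he, rfl⟩ := Finset.mem_image.1 hf
      have := (Finset.mem_filter.1 he).2
      omega
    obtain ⟨c, hc⟩ := works_of_mNum_le h H2 hH2 hheavy
    refine ⟨fun v => decide (c v = 0), fun e he hcard b => ?_⟩
    have hmem : e ∩ X ∈ H2.edges :=
      Finset.mem_image.2 ⟨e, Finset.mem_filter.2 ⟨he, hcard⟩, rfl⟩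
    cases b
    · obtain ⟨v, hv, hv1⟩ := hc _ hmem 1
      exact ⟨v, hv, by simp [hv1]⟩
    · obtain ⟨v, hv, hv0⟩ := hc _ hmem 0
      exact ⟨v, hv, by simp [hv0]⟩

/-- Let `F` be a hereditary family of finite hypergraphs with `m_2(F) ≤ M`. For every member `H`,
all nonnegative vertex weights `w` and every `δ > 0`, the edges of weight at least `δ` are all met
by a set `T` of at most `25600 (M - 1) w(V) / δ` vertices. -/
theorem result (F : Set (FinHyp α)) (hF : Hereditary F) (M : ℕ) (hM : mNum F 2 ≤ M)
    (H : FinHyp α) (hH : H ∈ F) (w : α → ℝ) (hw : ∀ v ∈ H.verts, 0 ≤ w v) (δ : ℝ) (hδ : 0 < δ) :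
    ∃ T ⊆ H.verts, (T.card : ℝ) * δ ≤ 25600 * ((M : ℝ) - 1) * ∑ v ∈ H.verts, w v ∧
      ∀ e ∈ H.edges, δ ≤ ∑ v ∈ e, w v → (e ∩ T).Nonempty := by
  have h2 := two_le hF hM hH
  obtain ⟨T, hT, hTc, hTh⟩ := Pool.Agent.Work.MP_918ecd_co.hitting (M - 1) (by omega) w
    H.verts H.edges δ hδ hw H.subset_of_mem (good_of_mNum_le hF hM hH)
  refine ⟨T, hT, ?_, hTh⟩
  rwa [Nat.cast_sub (by omega : 1 ≤ M), Nat.cast_one] at hTc

end Pool.Agent.Results.MP_918ecd_co.LinearHittingSets
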