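import Pool.Agent.Work.MP_918ecd_co.On.Iter

/-!
Online version of the problem: if the members of a family of finite hypergraphs have online
2-colourings which are good on every admissible sequence of arrivals, then for every `k` they have
online polychromatic `k`-colourings; in particular all `m_k` are finite.
-/

namespace Pool.Agent.Results.MP_918ecd_co.OnlineColourings

open Finset

/-- A finite hypergraph with vertices in `α`: a finite vertex set together with a nonempty finite
set of edges, each edge being a nonempty set of vertices. -/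
structure FinHyp (α : Type*) where
  verts : Finset α
  edges : Finset (Finset α)
  edges_nonempty : edges.Nonempty
  nonempty_of_mem : ∀ e ∈ edges, e.Nonempty
  subset_of_mem : ∀ e ∈ edges, e ⊆ verts

variable {α : Type*} [DecidableEq α]

/-- `H` has a polychromatic `k`-colouring: a colouring of the vertices with `k` colours such that
every edge has vertices of all `k` colours. -/
def Polychromatic (k : ℕ) (H : FinHyp α) : Prop :=
  ∃ c : α → Fin k, ∀ e ∈ H.edges, ∀ i : Fin k, ∃ v ∈ e, c v = i

/-- `H` is `m`-heavy: every edge has at least `m` vertices. -/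
def Heavy (m : ℕ) (H : FinHyp α) : Prop := ∀ e ∈ H.edges, m ≤ e.card

/-- The number `m_k(F)`: the least `m` such that every `m`-heavy member of `F` has a polychromatic
`k`-colouring, and `∞` if there is no such `m`. -/
noncomputable def mNum (F : Set (FinHyp α)) (k : ℕ) : ℕ∞ :=
  ⨅ m ∈ {m : ℕ | ∀ H ∈ F, Heavy m H → Polychromatic k H}, (m : ℕ∞)

/-- The colours given by the online algorithm `A`.  A history is the list of the vertices which
have arrived, the latest one first.  When the vertex `v` arrives after the history `l`, it gets the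
colour `A l v`, which is never changed later.  Vertices which have not arrived have no colour. -/
def run {β : Type*} (A : List α → α → β) : List α → α → Option β
  | [] => fun _ => none
  | v :: l => Function.update (run A l) v (some (A l v))

/-- An arrival model for `H`: a set `S` of histories without repetition, consisting of vertices of
`H`, closed under deleting arrivals, and containing a history in which all vertices of `H` arrive.
(Fixed order: all sublists of one enumeration of the vertices.  Adversarial order: all lists of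
vertices without repetition.) -/
def IsModel (H : FinHyp α) (S : Set (List α)) : Prop :=
  (∀ l ∈ S, l.Nodup ∧ ∀ v ∈ l, v ∈ H.verts) ∧
  (∀ l ∈ S, ∀ l' : List α, l'.Sublist l → l' ∈ S) ∧
  ∃ l ∈ S, ∀ v ∈ H.verts, v ∈ l

/-- `H` has an online `k`-colouring of threshold `m` for the histories in `S`: one algorithm such
that, for every history `l ∈ S` and every edge `e` with at least `m` vertices in `l`, the vertices
of `e` in `l` get all `k` colours. -/
def OnlinePoly (S : Set (List α)) (k m : ℕ) (H : FinHyp α) : Prop :=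
  ∃ A : List α → α → Fin k, ∀ l ∈ S, ∀ e ∈ H.edges, m ≤ (e.filter (· ∈ l)).card →
    ∀ i : Fin k, ∃ v ∈ e, v ∈ l ∧ run A l v = some i

/-- The online analogue of `m_k(F)` for the arrival models `Adm H`: the least `m` such that every
`H ∈ F` has an online `k`-colouring of threshold `m`, and `∞` if there is no such `m`. -/
noncomputable def onNum (F : Set (FinHyp α)) (Adm : FinHyp α → Set (List α)) (k : ℕ) : ℕ∞ :=
  ⨅ m ∈ {m : ℕ | ∀ H ∈ F, OnlinePoly (Adm H) k m H}, (m : ℕ∞)

/-- the two forms of `run` agree on vertices which have arrived -/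
lemma run_eq {β : Type*} [Inhabited β] (A : List α → α → β) {l : List α} {v : α} (hv : v ∈ l) :
    run A l v = some (Pool.Agent.Work.MP_918ecd_co.On.run A l v) := by
  induction l with
  | nil => exact absurd hv List.not_mem_nil
  | cons w l ih =>
    by_cases h : v = w
    · subst h
      rw [Pool.Agent.Work.MP_918ecd_co.On.run_cons_self]
      simp [run]
    · rw [Pool.Agent.Work.MP_918ecd_co.On.run_cons_ne A h, ← ih ((List.mem_cons.1 hv).resolve_left h)]
      simp [run, Function.update_of_ne h]

lemma onlinePoly_of_le {F : Set (FinHyp α)} {Adm : FinHyp α → Set (List α)} {k M : ℕ}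
    (h : onNum F Adm k ≤ M) : ∀ H ∈ F, OnlinePoly (Adm H) k M H := by
  by_contra hcon
  have h1 : ((M + 1 : ℕ) : ℕ∞) ≤ onNum F Adm k := by
    refine le_iInf₂ fun m hm => ?_
    have : M < m := by
      by_contra hle
      push Not at hle
      refine hcon fun H hH => ?_
      obtain ⟨A, hA⟩ := hm H hH
      exact ⟨A, fun l hl e he hc => hA l hl e he (hle.trans hc)⟩
    exact_mod_cast this
  have h2 := h1.trans h
  have h3 : M + 1 ≤ M := by exact_mod_cast h2
  omega

lemma online_step {H : FinHyp α} {S : Set (List α)} (hS : IsModel H S) {M : ℕ}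
    (h : OnlinePoly S 2 M H) (k : ℕ) (hk : 1 ≤ k) :
    OnlinePoly S k ((16 * M) ^ Nat.clog 2 k) H := by
  have : NeZero k := ⟨by omega⟩
  obtain ⟨A, hA⟩ := h
  have hworks : Pool.Agent.Work.MP_918ecd_co.On.Works S (H.edges : Set (Finset α)) M
      (fun l v => decide (A l v = 0)) := by
    intro l hl e he hm b
    have he' : e ∈ H.edges := he
    have key : ∀ i : Fin 2, ∃ v ∈ e, v ∈ l ∧ Pool.Agent.Work.MP_918ecd_co.On.run A l v = i := by
      intro i
      obtain ⟨v, hv, hvl, hr⟩ := hA l hl e he' hm i
      rw [run_eq A hvl] at hr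
      exact ⟨v, hv, hvl, Option.some_injective _ hr⟩
    cases b
    · obtain ⟨v, hv, hvl, hr⟩ := key 1
      refine ⟨v, Pool.Agent.Work.MP_918ecd_co.On.mem_inter.2 ⟨hv, hvl⟩, ?_⟩
      rw [Pool.Agent.Work.MP_918ecd_co.On.run_comp (fun x : Fin 2 => decide (x = 0)) A hvl, hr]
      simp
    · obtain ⟨v, hv, hvl, hr⟩ := key 0
      refine ⟨v, Pool.Agent.Work.MP_918ecd_co.On.mem_inter.2 ⟨hv, hvl⟩, ?_⟩
      rw [Pool.Agent.Work.MP_918ecd_co.On.run_comp (fun x : Fin 2 => decide (x = 0)) A hvl, hr]
      simp
  have hM : 1 ≤ M := by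
    by_contra hlt
    have hM0 : M = 0 := by omega
    obtain ⟨e, he⟩ := H.edges_nonempty
    obtain ⟨l, hl, _⟩ := hS.2.2
    obtain ⟨v, _, hvl, _⟩ := hA [] (hS.2.1 l hl [] (List.nil_sublist l)) e he (by omega) 0
    exact List.not_mem_nil hvl
  obtain ⟨B, hB⟩ := Pool.Agent.Work.MP_918ecd_co.On.exists_fin hS.2.1 (fun l hl => (hS.1 l hl).1)
    hM hworks k
  refine ⟨B, fun l hl e he hm i => ?_⟩
  obtain ⟨v, hv, hr⟩ := hB l hl e he hm i
  rw [Pool.Agent.Work.MP_918ecd_co.On.mem_inter] at hv
  exact ⟨v, hv.1, hv.2, by rw [run_eq B hv.2, hr]⟩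

/-- Let `F` be a family of finite hypergraphs with arrival models `Adm H` (`H ∈ F`), such that
online `2`-colourings exist with threshold `M`.  Then for every `k ≥ 1` online `k`-colourings exist
with threshold `(16 M)^⌈log₂ k⌉`; in particular `m_k(F) ≤ (16 M)^⌈log₂ k⌉`. -/
theorem result (F : Set (FinHyp α)) (Adm : FinHyp α → Set (List α))
    (hAdm : ∀ H ∈ F, IsModel H (Adm H)) (M : ℕ) (hM : onNum F Adm 2 ≤ M) (k : ℕ) (hk : 1 ≤ k) :
    onNum F Adm k ≤ (((16 * M) ^ Nat.clog 2 k : ℕ) : ℕ∞) ∧
      mNum F k ≤ (((16 * M) ^ Nat.clog 2 k : ℕ) : ℕ∞) := by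
  have h2 := onlinePoly_of_le hM
  constructor
  · exact iInf₂_le ((16 * M) ^ Nat.clog 2 k) fun H hH =>
      online_step (hAdm H hH) (h2 H hH) k hk
  · refine iInf₂_le ((16 * M) ^ Nat.clog 2 k) fun H hH hheavy => ?_
    obtain ⟨A, hA⟩ := online_step (hAdm H hH) (h2 H hH) k hk
    obtain ⟨l, hl, hall⟩ := (hAdm H hH).2.2
    have : NeZero k := ⟨by omega⟩
    refine ⟨fun v => (run A l v).getD 0, fun e he i => ?_⟩
    have hfil : e.filter (· ∈ l) = e :=
      Finset.filter_true_of_mem fun v hv => hall v (H.subset_of_mem e he hv)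
    obtain ⟨v, hv, _, hr⟩ := hA l hl e he (by rw [hfil]; exact hheavy e he) i
    exact ⟨v, hv, by simp [hr]⟩

end Pool.Agent.Results.MP_918ecd_co.OnlineColourings
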